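import Pool.Agent.Zk50.SD.Main

/-!
# Self-dual Chow-Kunneth decompositions from the first half of the cohomology

`𝒱` is a class of smooth projective geometrically irreducible varieties over the field `k` closed
under products (for example all of them), `C` the Chow groups with rational coefficients (in the
form of their formal properties, `IsChowProj`) and `H` a Weil cohomology theory (`IsWeilProj`).

A Chow motive `(Y, p)` is called nil if its homologically trivial endomorphisms are nilpotent
(`NilCor`; by Kimura this holds for finite-dimensional motives, such as those of products of curves
and their direct factors). The group `H^i(X)` is nil covered (`NilCovered`) if the projection onto it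
is a finite sum of orthogonal idempotent maps of the cohomology each of which is induced by a
composition `h(X) → (Y, p)(e) → h(X)` with `(Y, p)` nil.

If `H^i(X)` is nil covered for `0 < i < dim X`, then `X` has a self-dual Chow-Kunneth decomposition.
Nothing is assumed on the middle cohomology `H^(dim X)(X)` (where the motive of `X` need not be
finite-dimensional) nor on the existence of a Chow-Kunneth decomposition or of lifts of the given
idempotents to Chow groups.

For the proof the idempotents are lifted to nil projectors of `X`; the form which the transposition
induces on such a nil projector `p` below the middle is homologically trivial, hence nilpotent, and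
can be made zero by the solution `c = (1 - √(1 - n)) / n`, `n = p ∘ ᵗp ∘ p`, of
`1 - 2 c + n c ^ 2 = 0`; one then splits off `p` and `ᵗp` and goes on in the complement.
-/

open CategoryTheory AlgebraicGeometry

set_option autoImplicit false

universe u v w

namespace Pool.Agent.Results.MP_8a7054_ag.HalfNilCover

open Pool.Agent.H914 Pool.Agent.W492.BB Pool.Agent.TH133 Pool.Agent.Zk50.SD

/-- If `H^i(X)` is nil covered for `0 < i < dim X`, then `X` has a self-dual Chow-Kunneth
decomposition. -/
theorem result {k : Type u} [Field k] {𝒱 : VarClass k} (C : TheoryData.{u, v, 0} 𝒱 ℚ)
    [IsChowProj C] {K : Type w} [Field K] (H : WeilTheoryData.{u, v, w} C K) [IsWeilProj H]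
    (X : 𝒱.Obj) (hX : ∀ i, 0 < i → i < X.dim → NilCovered H X i) :
    ∃ π : ℕ → C.A (X.prod X), IsCK H X π ∧ IsSelfDual C π :=
  exists_selfDual_of_nilCovered X hX

end Pool.Agent.Results.MP_8a7054_ag.HalfNilCover
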