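import Pool.Agent.Zk56.MB.Conv

/-!
# Self-dual Chow-Kunneth decompositions of metabolic sums

`𝒱` is a class of smooth projective geometrically irreducible varieties over the field `k` closed
under products (for example all of them), `C` the Chow groups with rational coefficients (in the
form of their formal properties, `IsChowProj`) and `H` a Weil cohomology theory (`IsWeilProj`).

A Chow-Kunneth decomposition of `X` need not be self-dual, and it is not known whether `X` has a
self-dual one. We show that this does not matter for the motives which occur in `h(Z)` together with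
their duals: let `α s : h(X s)(-c s) → h(Z)` be isotropic split monomorphisms, and
`γ t : h(Y t)(-e t) → h(Z)`, `dim Z = dim (Y t) + 2 e t`, isometries up to factors which are orthogonal
to each other and to the `α s`, such that the images of the `α s`, of the transposed retractions of the
`α s` and of the `γ t` span the cohomology of `Z` below the middle degree (`MetabolicBelow`). If all
`X s` have a Chow-Kunneth decomposition and all `Y t` have a self-dual one, then `Z` has a self-dual
one. Nothing is assumed on the remaining part of the motive `h(Z)`.

Two cases are carried out.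

* `f : Z → X` is of relative dimension `r`, and there are classes `a s` of degree `c s ≤ r / 2` and
  `b s` of degree `r - c s` on `Z` which span the cohomology of `Z` below the middle degree over that of
  `X` (`ClassesSpanBelow`), with `f_* (a s b t) = δ_{st}` if `c s = c t` and `f_* (a s a t) = 0` if
  `c s + c t = r` (`HyperbolicClasses`). If `X` has a Chow-Kunneth decomposition, then `Z` has a
  self-dual one. Examples: all fibrations of odd relative dimension for which the cohomology of the
  fibres is generated by algebraic classes of `Z` (projective bundles, bundles of flag varieties,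
  Severi-Brauer schemes, families of quadrics or of Fano threefolds with `b_3 = 0`, products `X × P`
  with `P` odd-dimensional and `H(P)` algebraic, ...); nothing is assumed on the Chow groups of the
  fibres.
* `Z` is the blow-up of `W` in `X` of codimension `c` (`BlowUpLike`, `r = c - 1`), and `W` has a
  self-dual decomposition. If `c` is odd and `X` has a Chow-Kunneth decomposition, then `Z` has a
  self-dual one; for all `c` this holds if `X` has a self-dual one.

For the proof let `q n` be the sum of the projectors `α s ∘ p (n - 2 c s) ∘ β s`, `q = ∑ q n`. As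
`ᵗq q = 0`, the projectors `F n = q n (1 - ᵗq / 2)` are orthogonal to their transposes. The projectors
`F n + ᵗ(F (2 d - n)) + G n`, `n < d = dim Z`, where `G n = (1 - q) g n (1 - ᵗq)` comes from the `γ t`,
are the first half of the decomposition.
-/

open CategoryTheory AlgebraicGeometry

set_option autoImplicit false

universe u v w

namespace Pool.Agent.Results.MP_8a7054_ag.MetabolicSums

open Pool.Agent.H914 Pool.Agent.H914.VarClass Pool.Agent.W492.BB Pool.Agent.TH133
  Pool.Agent.Zk56.MB.Pub

/-- Metabolic sums of Chow motives have self-dual Chow-Kunneth decompositions; in particular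
fibrations with hyperbolic algebraic cohomology of the fibres, and blow-ups. -/
theorem result {k : Type u} [Field k] {𝒱 : VarClass k} (C : TheoryData.{u, v, 0} 𝒱 ℚ)
    [IsChowProj C] {K : Type w} [Field K] (H : WeilTheoryData.{u, v, w} C K) [IsWeilProj H] :
    -- 1. metabolic sums
    (∀ (Z : 𝒱.Obj) (S T : Type) [Fintype S] [Fintype T] (X : S → 𝒱.Obj) (c : S → ℕ)
      (α : ∀ s, C.A ((X s).prod Z)) (β : ∀ s, C.A (Z.prod (X s))) (Y : T → 𝒱.Obj) (e : T → ℕ)
      (γ : ∀ t, C.A ((Y t).prod Z)), MetabolicBelow H X c α β Y e γ →
      (∀ s, HasCK H (X s)) → (∀ t, HasSelfDualCK H (Y t)) → HasSelfDualCK H Z) ∧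
    -- 2. fibrations with hyperbolic algebraic cohomology of the fibres
    (∀ (Z X : 𝒱.Obj) (f : Z ⟶ X) (r : ℕ) (S : Type) [Fintype S] (c : S → ℕ) (a b : S → C.A Z),
      HyperbolicClasses C f r c a b → ClassesSpanBelow H f a b → HasCK H X → HasSelfDualCK H Z) ∧
    -- 3. blow-ups
    (∀ (W X Z E : 𝒱.Obj) (p : Z ⟶ W) (i : X ⟶ W) (j : E ⟶ Z) (g : E ⟶ X) (ξ : C.A E) (r : ℕ),
      BlowUpLike H p i j g ξ r → HasSelfDualCK H W →
      (Even r ∧ HasCK H X) ∨ HasSelfDualCK H X → HasSelfDualCK H Z) :=
  ⟨fun _ _ _ _ _ _ _ _ _ _ _ _ h hX hY => Zk56.MB.exists_selfDual h.conv hX hY,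
    fun _ _ _ _ _ _ _ _ _ h hs hX => exists_selfDual_of_classes h hs hX,
    fun _ _ _ _ _ _ _ _ _ _ h hW hX => Zk56.MB.exists_selfDual_of_blowUp h.conv hW hX⟩

end Pool.Agent.Results.MP_8a7054_ag.MetabolicSums
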