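import Pool.Agent.Zk43.CK.Fin

/-!
# Nil complements do not matter for Chow-Kunneth decompositions

`𝒱` is a class of smooth projective geometrically irreducible varieties over the field `k` closed
under products (for example all of them), `C` the Chow groups with rational coefficients (in the
form of their formal properties, `IsChowProj`) and `H` a Weil cohomology theory (`IsWeilProj`).

A projector `g` of the motive `h(Y)` is called nil if the homologically trivial endomorphisms of the
Chow motive `(Y, g)` are nilpotent (`NilCor`; by Kimura this holds if `(Y, g)` is finite-dimensional).
The relation `NilComplement H X Y` says that `h(Y)` is the orthogonal sum of `h(X)(-e)`,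
`2 e = dim Y - dim X`, and of a nil motive with algebraic Kunneth components (of which no lifts to
Chow groups are assumed). Nothing is assumed on `h(X)`.

If `X` and `Y` are equivalent for the equivalence relation generated by this relation, then `X` has a
Chow-Kunneth decomposition if and only if `Y` has one, and `X` has a self-dual Chow-Kunneth
decomposition if and only if `Y` has one. The second part of the theorem shows that morphisms
`f : Y → X` of non-zero degree whose complementary motive is nil with algebraic Kunneth components
are examples of the relation.

Examples are the blow-ups `Y → X` along a centre `Z` with finite-dimensional motive and algebraic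
Kunneth components (a point, a curve, an abelian variety, a product of curves, ...): the complement is
a sum of twists of `h(Z)`. So the existence of a (self-dual) Chow-Kunneth decomposition is a
birational invariant of threefolds in characteristic zero, by the factorization of birational maps
(which is not part of this file). Another example (with `e = 1`, `N = -1`) is the blow-up `Y` of a
projective space along `X` of codimension two.

For the proof of the descent from `Y` to `X` (direct factors of motives which have a Chow-Kunneth
decomposition are not known to have one) the complementary nil projector `g` is compared with the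
nearby family `∑ p_i g p_i` which is lifted to a projector `g'` commuting with all `p_i`; with
`t = g g' + (1 - g) (1 - g')` and `c = (g - g') ^ 2` the correspondence `t (1 - c) ^ (-1/2)` is
orthogonal for the transposition and moves `g'` to `g`. In the other direction the Kunneth components
of `g` are lifted to a self-dual family.
-/

open CategoryTheory AlgebraicGeometry

set_option autoImplicit false

universe u v w

namespace Pool.Agent.Results.MP_8a7054_ag.NilComplements

open Pool.Agent.H914 Pool.Agent.H914.VarClass Pool.Agent.W492.BB Pool.Agent.TH133 Pool.Agent.Zk50.SD
  Pool.Agent.Zk43.CK

/-- The existence of a (self-dual) Chow-Kunneth decomposition is invariant under the equivalence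
relation generated by nil complements; morphisms of non-zero degree with nil complementary motive are
examples. -/
theorem result {k : Type u} [Field k] {𝒱 : VarClass k} (C : TheoryData.{u, v, 0} 𝒱 ℚ)
    [IsChowProj C] {K : Type w} [Field K] (H : WeilTheoryData.{u, v, w} C K) [IsWeilProj H] :
    (∀ X Y : 𝒱.Obj, Relation.EqvGen (NilComplement H) X Y →
      ((∃ π, IsCK H X π) ↔ ∃ π, IsCK H Y π) ∧
        ((∃ π, IsCK H X π ∧ IsSelfDual C π) ↔ ∃ π, IsCK H Y π ∧ IsSelfDual C π)) ∧
    (∀ (X Y : 𝒱.Obj) (f : Y ⟶ X) (N : ℚ), Y.dim = X.dim → N ≠ 0 → C.push f 1 = N • 1 →
      NilCor H (coproj C (C.cograph f) N) →
      (∀ i : ℕ, ∃ z : C.A (Y.prod Y), C.Deg Y.dim z ∧ ∀ (m : ℤ) (y : H.A Y), H.Deg m y →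
        H.act (H.cl z) y = if m = i then H.act (H.cl (coproj C (C.cograph f) N)) y else 0) →
      NilComplement H X Y) :=
  ⟨fun _ _ h => iff_of_eqvGen h, fun _ _ f _ hd hN hf hn hz =>
    nilComplement_of_morphism f hd hN hf hn hz⟩

end Pool.Agent.Results.MP_8a7054_ag.NilComplements
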