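import Pool.Agent.Zk50.SE.Final
import Pool.Agent.Zk81.SE.Nil

/-!
# Self-dual Chow-Kunneth decompositions and single correspondences

`𝒱` is a class of smooth projective geometrically irreducible varieties over the field `k` closed
under products (for example all of them), `C` the Chow groups with rational coefficients (in the
form of their formal properties, `IsChowProj`) and `H` a Weil cohomology theory (`IsWeilProj`).
Let `X` be of dimension `d`, `R = CH^d(X × X)` its ring of correspondences, and let
`f = ∏ (T - (i - d))`, `0 ≤ i ≤ 2 d`.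

**Theorem.** The following are equivalent.

1. `X` has a self-dual Chow-Kunneth decomposition.
2. There is an antisymmetric correspondence `κ` (`ᵗκ = - κ`) which acts on `H^i(X)` as the
   multiplication by `i - d`, such that the chain of the right ideals `f(κ)^n R` is stationary.
3. There is a correspondence `γ ∈ R` which commutes with its transpose, is algebraic over `ℚ`, and has
   disjoint spectra on the groups `H^i(X)`.
4. There is `γ ∈ R`, algebraic over `ℚ` and with disjoint spectra on the groups `H^i(X)`, such that
   `ᵗγ ∘ γ` or `γ ∘ ᵗγ` is a non-zero rational multiple of the diagonal (for example the graph of a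
   surjective endomorphism of `X`, if it is algebraic and has disjoint spectra; over a finite field the
   Frobenius endomorphism has disjoint spectra, and by a conjecture it is algebraic).
5. There is a subring of `R`, stable under transposition, in which all homologically trivial elements
   are algebraic over `ℚ` (for example a finite-dimensional one), and which contains elements acting
   as the projections onto `H^i(X)` for all `i < d`.
6. There are orthogonal idempotents `p_i ∈ R`, `i < d`, acting as the projections onto `H^i(X)`, such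
   that `ᵗP ∘ P` is nilpotent for `P = ∑ p_i`.

`X` has a Chow-Kunneth decomposition if and only if there is `γ ∈ R` algebraic over `ℚ` with disjoint
spectra on the `H^i(X)`, and if and only if there is `κ ∈ R` acting on `H^i(X)` as the multiplication by
`i - d` such that the chains of the right ideals `f(κ)^n R` and of the left ideals `R f(κ)^n` are
stationary.

Nothing is assumed about the nilpotence of homologically trivial correspondences: there could be
homologically trivial idempotents. They are put into the middle part of the decomposition.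

Proof of 2 ⇒ 1: `a = f(κ)` satisfies `ᵗa = - a`, so the chain of left ideals is stationary too, and there
is an idempotent `e` (the projection onto the part on which `a` is invertible), homologically trivial,
symmetric and commuting with `κ`, such that `a^n (1 - e) = 0`. Let `u_i` be polynomials with
`u_i ≡ 1` modulo `(T - (i - d))^n` and `u_i ≡ 0` modulo `(T - (j - d))^n`, `j ≠ i`. The idempotents are
`u_i(κ) (1 - e)`, and `e` is added to the one in the middle. 5 ⇒ 2: `κ = ∑ (i - d) (p_i - ᵗp_i)`.
3 ⇒ 5: the ring generated by `γ` and `ᵗγ`. 4 ⇒ 3: one-sided inverses of algebraic elements are inverses.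
6 ⇒ 1 is a module by helper81 (`Pool/Agent/Zk81/SE/Nil.lean`).
-/

open CategoryTheory AlgebraicGeometry

set_option autoImplicit false

universe u v w

namespace Pool.Agent.Results.MP_8a7054_ag.SingleCorrespondence

open Pool.Agent.H914 Pool.Agent.W492.BB Pool.Agent.TH133 Pool.Agent.Y107 Pool.Agent.W550.Corr
  Pool.Agent.Zk50.SE

/-- The orthogonal idempotents `p i`, `i < dim X`, of condition 6. -/
theorem one_six {k : Type u} [Field k] {𝒱 : VarClass k} {C : TheoryData.{u, v, 0} 𝒱 ℚ}
    [IsChowProj C] {K : Type w} [Field K] {H : WeilTheoryData.{u, v, w} C K} [IsWeilProj H]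
    (X : 𝒱.Obj) (h : ∃ π : ℕ → C.A (X.prod X), IsCK H X π ∧ IsSelfDual C π) :
    ∃ p : ℕ → C.A (X.prod X), (∀ i < X.dim, C.Deg X.dim (p i)) ∧
      (∀ i < X.dim, C.comp (p i) (p i) = p i) ∧
      (∀ i < X.dim, ∀ j < X.dim, i ≠ j → C.comp (p i) (p j) = 0) ∧
      (∀ i < X.dim, IsLift H i (p i)) ∧
      ∃ n, corPow C (C.comp (∑ i ∈ Finset.range X.dim, p i)
        (tp C (∑ i ∈ Finset.range X.dim, p i))) n = 0 := by
  obtain ⟨π, h1, h2⟩ := h
  refine ⟨π, fun i _ => h1.deg i, fun i _ => h1.idem i, fun i _ j _ hij => h1.orth i j hij, ?_, 1, ?_⟩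
  · intro i _ m a ha
    split_ifs with hm
    · subst hm
      exact h1.act_self i a ha
    · exact h1.act_ne i m a hm ha
  · obtain ⟨ρ, hρ, hid, horth, -, -, hsd⟩ := ck_ring h1
    have e0 : (∑ i ∈ Finset.range X.dim, π i) =
        (((∑ i ∈ Finset.range X.dim, ρ i : cor0 C X) : cor0 C X) : Cor C X) := by
      rw [AddSubmonoidClass.coe_finset_sum]
      exact Finset.sum_congr rfl fun i _ => (hρ i).symm
    have e1 : Pool.Agent.Zk50.SD.tr0 C X (∑ i ∈ Finset.range X.dim, ρ i) *
        (∑ i ∈ Finset.range X.dim, ρ i) = 0 := by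
      rw [map_sum, Finset.sum_mul]
      refine Finset.sum_eq_zero fun i hi => ?_
      rw [Finset.mul_sum]
      refine Finset.sum_eq_zero fun j hj => ?_
      have hi' := Finset.mem_range.1 hi
      have hj' := Finset.mem_range.1 hj
      rw [hsd h2 i (by omega)]
      exact horth _ _ (by omega)
    have e2 : corPow C (C.comp (∑ i ∈ Finset.range X.dim, π i)
        (tp C (∑ i ∈ Finset.range X.dim, π i))) 1 =
        C.comp (dg C X) (C.comp (∑ i ∈ Finset.range X.dim, π i)
          (tp C (∑ i ∈ Finset.range X.dim, π i))) := rfl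
    rw [e2, dg_comp, e0]
    exact congrArg Subtype.val e1

/-- Self-dual Chow-Kunneth decompositions and single correspondences. -/
theorem result {k : Type u} [Field k] {𝒱 : VarClass k} (C : TheoryData.{u, v, 0} 𝒱 ℚ)
    [IsChowProj C] {K : Type w} [Field K] (H : WeilTheoryData.{u, v, w} C K) [IsWeilProj H]
    (X : 𝒱.Obj) :
    List.TFAE [
      ∃ π : ℕ → C.A (X.prod X), IsCK H X π ∧ IsSelfDual C π,
      ∃ κ : C.A (X.prod X), IsGrading H κ ∧ tp C κ = -κ ∧
        StationaryRight C (val C (gp X.dim) κ),
      ∃ γ : C.A (X.prod X), C.Deg X.dim γ ∧ C.comp γ (tp C γ) = C.comp (tp C γ) γ ∧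
        Algebraic C γ ∧ DisjointSpectra H γ,
      ∃ (γ : C.A (X.prod X)) (c : ℚ), c ≠ 0 ∧ C.Deg X.dim γ ∧
        (C.comp γ (tp C γ) = c • dg C X ∨ C.comp (tp C γ) γ = c • dg C X) ∧ Algebraic C γ ∧
          DisjointSpectra H γ,
      ∃ S : Set (C.A (X.prod X)), NearlyAlgebraicRing H S ∧ ∀ i < X.dim, ∃ p ∈ S, IsLift H i p,
      ∃ p : ℕ → C.A (X.prod X), (∀ i < X.dim, C.Deg X.dim (p i)) ∧
        (∀ i < X.dim, C.comp (p i) (p i) = p i) ∧
        (∀ i < X.dim, ∀ j < X.dim, i ≠ j → C.comp (p i) (p j) = 0) ∧
        (∀ i < X.dim, IsLift H i (p i)) ∧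
        ∃ n, corPow C (C.comp (∑ i ∈ Finset.range X.dim, p i)
          (tp C (∑ i ∈ Finset.range X.dim, p i))) n = 0] ∧
    List.TFAE [
      ∃ π : ℕ → C.A (X.prod X), IsCK H X π,
      ∃ γ : C.A (X.prod X), C.Deg X.dim γ ∧ Algebraic C γ ∧ DisjointSpectra H γ,
      ∃ κ : C.A (X.prod X), IsGrading H κ ∧ StationaryRight C (val C (gp X.dim) κ) ∧
        StationaryLeft C (val C (gp X.dim) κ)] := by
  constructor
  · tfae_have 1 → 4 := one_four X
    tfae_have 4 → 3 := four_three X
    tfae_have 3 → 5 := three_five X
    tfae_have 5 → 2 := five_two X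
    tfae_have 2 → 1 := two_one X
    tfae_have 1 → 6 := one_six X
    tfae_have 6 → 1 := by
      rintro ⟨p, h1, h2, h3, h4, h5⟩
      exact Pool.Agent.Zk81.SE.selfDual_of_nil X p h1 h2 h3 h4 h5
    tfae_finish
  · tfae_have 1 → 2 := ck_one_two X
    tfae_have 2 → 3 := ck_two_three X
    tfae_have 3 → 1 := ck_three_one X
    tfae_finish

end Pool.Agent.Results.MP_8a7054_ag.SingleCorrespondence
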